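import Pool.Agent.V7H69.EL.Gib

/-!
# Functions with pinched curvature: restrictions, strict points, affine minorants
-/

set_option autoImplicit false

namespace Pool.Agent.V7H69.EL

open MeasureTheory Set Filter Topology
open scoped InnerProductSpace

variable {m : ℕ} {κ : ℝ}

theorem cvx_aff {N : ℕ} (f : Eu N →ₗ[ℝ] ℝ) (c : ℝ) : ConvexOn ℝ univ fun x => f x + c :=
  (f.convexOn convex_univ).add (convexOn_const c convex_univ)

/-- restriction to affine subspaces -/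
theorem PinB.restr {k N : ℕ} {B : Eu m →ₗ[ℝ] Eu k} {S : Eu m → ℝ} (h : PinB κ B S)
    (w : Eu N →ₗ[ℝ] Eu m) (c : Eu m) (b : ℝ) : PinB κ (B ∘ₗ w) fun x => S (w x + c) + b := by
  let g : Eu N →ᵃ[ℝ] Eu m := w.toAffineMap + AffineMap.const ℝ (Eu N) c
  have hg : ∀ x, g x = w x + c := fun x => rfl
  let f : Eu N →ₗ[ℝ] ℝ := (innerₛₗ ℝ (B c)) ∘ₗ (B ∘ₗ w)
  have hf : ∀ x, f x = ⟪B (w x), B c⟫_ℝ := fun x => by
    change ⟪B c, B (w x)⟫_ℝ = _
    exact real_inner_comm _ _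
  have hsq : ∀ x, ‖B (w x + c)‖ ^ 2 = ‖B (w x)‖ ^ 2 + 2 * ⟪B (w x), B c⟫_ℝ + ‖B c‖ ^ 2 := by
    intro x
    rw [map_add, norm_add_sq_real]
  constructor
  · have h1 := (h.lower.comp_affineMap g).add
      (cvx_aff ((κ⁻¹ * 2) • f) (κ⁻¹ * ‖B c‖ ^ 2 + b))
    rw [preimage_univ] at h1
    refine h1.congr fun x _ => ?_
    simp only [Pi.add_apply, Function.comp_apply, hg, LinearMap.smul_apply, smul_eq_mul, hf, hsq,
      LinearMap.comp_apply]
    ring
  · have h1 := (h.upper.comp_affineMap g).add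
      (cvx_aff ((-(κ * 2)) • f) (-(κ * ‖B c‖ ^ 2) - b))
    rw [preimage_univ] at h1
    refine h1.congr fun x _ => ?_
    simp only [Pi.add_apply, Function.comp_apply, hg, LinearMap.smul_apply, smul_eq_mul, hf, hsq,
      LinearMap.comp_apply]
    ring

/-- the zero function -/
theorem PinB.zero : PinB κ (0 : Eu m →ₗ[ℝ] Eu 0) fun _ => 0 := by
  constructor
  · simpa using (convexOn_const (𝕜 := ℝ) (0 : ℝ) (convex_univ (E := Eu m)))
  · simpa using (convexOn_const (𝕜 := ℝ) (0 : ℝ) (convex_univ (E := Eu m)))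

/-- nonnegative functions with pinched curvature which define a bounded set with interior points can
be chosen such that there is a strict point -/
theorem slater {r : ℕ} {k : Fin r → ℕ} {B : ∀ j, Eu m →ₗ[ℝ] Eu (k j)} {S : Fin r → Eu m → ℝ}
    (hκ : 0 < κ) (h : ∀ j, PinB κ (B j) (S j)) (h0 : ∀ j x, 0 ≤ S j x) {e : Fin r → ℝ}
    (hi : (interior {x | ∀ j, S j x ≤ e j}).Nonempty) :
    ∃ (k' : Fin r → ℕ) (B' : ∀ j, Eu m →ₗ[ℝ] Eu (k' j)) (S' : Fin r → Eu m → ℝ) (e' : Fin r → ℝ),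
      (∀ j, PinB κ (B' j) (S' j)) ∧ (∀ j x, 0 ≤ S' j x) ∧ (∃ x, ∀ j, S' j x < e' j) ∧
      {x | ∀ j, S j x ≤ e j} = {x | ∀ j, S' j x ≤ e' j} := by
  classical
  obtain ⟨x₀, hx₀⟩ := hi
  have hmem : ∀ j, S j x₀ ≤ e j := interior_subset hx₀
  have hpick : ∀ j, ∃ (k' : ℕ) (B' : Eu m →ₗ[ℝ] Eu k') (S' : Eu m → ℝ) (e' : ℝ),
      PinB κ B' S' ∧ (∀ x, 0 ≤ S' x) ∧ S' x₀ < e' ∧ ∀ x, S j x ≤ e j ↔ S' x ≤ e' := by
    intro j
    by_cases hB : ∀ z, B j z = 0
    · refine ⟨0, 0, fun _ => 0, 1, PinB.zero, fun _ => le_rfl, one_pos, fun x => ?_⟩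
      refine ⟨fun _ => zero_le_one, fun _ => ?_⟩
      have h1 := (h j).ker (h0 j) (hB (x - x₀)) x₀
      rw [add_sub_cancel] at h1
      exact h1.trans (hmem j)
    · push Not at hB
      obtain ⟨z, hz⟩ := hB
      refine ⟨k j, B j, S j, e j, h j, h0 j, ?_, fun x => Iff.rfl⟩
      -- two points of the set around `x₀`
      have hc : Continuous fun t : ℝ => x₀ + t • z := by fun_prop
      have hn : (fun t : ℝ => x₀ + t • z) ⁻¹' interior {x | ∀ j, S j x ≤ e j} ∈ 𝓝 (0 : ℝ) := by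
        refine (isOpen_interior.preimage hc).mem_nhds ?_
        simpa using hx₀
      obtain ⟨δ, hδ, hball⟩ := Metric.mem_nhds_iff.1 hn
      have hp : x₀ + (δ / 2) • z ∈ {x | ∀ j, S j x ≤ e j} := by
        refine interior_subset (hball (show (δ / 2 : ℝ) ∈ Metric.ball 0 δ from ?_))
        rw [mem_ball_zero_iff, Real.norm_eq_abs, abs_of_pos (by positivity)]
        linarith
      have hm : x₀ + (-(δ / 2)) • z ∈ {x | ∀ j, S j x ≤ e j} := by
        refine interior_subset (hball (show (-(δ / 2) : ℝ) ∈ Metric.ball 0 δ from ?_))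
        rw [mem_ball_zero_iff, Real.norm_eq_abs, abs_neg, abs_of_pos (by positivity)]
        linarith
      have h1 := (h j).low (x₀ + (δ / 2) • z) (x₀ + (-(δ / 2)) • z)
      have e1 : (1 / 2 : ℝ) • (x₀ + (δ / 2) • z + (x₀ + (-(δ / 2)) • z)) = x₀ := by module
      have e2 : x₀ + (δ / 2) • z - (x₀ + (-(δ / 2)) • z) = δ • z := by module
      rw [e1, e2, map_smul, norm_smul, mul_pow] at h1
      have h2 : 0 < ‖B j z‖ := norm_pos_iff.2 hz
      have h3 : 0 < κ⁻¹ * (‖δ‖ ^ 2 * ‖B j z‖ ^ 2 / 2) := by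
        have : 0 < ‖δ‖ := norm_pos_iff.2 hδ.ne'
        positivity
      have h4 := hp j
      have h5 := hm j
      linarith
  choose k' B' S' e' h1 h2 h3 h4 using hpick
  refine ⟨k', B', S', e', h1, h2, ⟨x₀, h3⟩, ?_⟩
  ext x
  exact forall_congr' fun j => h4 j x

/-- affine minorants -/
theorem PinB.minor {k : ℕ} {B : Eu m →ₗ[ℝ] Eu k} {S : Eu m → ℝ} (hκ : 0 < κ) (h : PinB κ B S) :
    ∃ (f : Eu m →ₗ[ℝ] ℝ) (c : ℝ), ∀ x, f x + c ≤ S x := by
  have hc := h.cvx hκ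
  have hcont : Continuous S := hc.locallyLipschitz.continuous
  obtain ⟨f, c, h1, -⟩ := hc.exists_affine_le_of_lt (𝕜 := ℝ) (mem_univ (0 : Eu m))
    (show S 0 - 1 < S 0 by linarith) isClosed_univ
    (lowerSemicontinuousOn_univ_iff.2 hcont.lowerSemicontinuous)
  refine ⟨f, c, fun x => ?_⟩
  have h2 := h1 ⟨x, mem_univ x⟩
  simpa using h2

end Pool.Agent.V7H69.EL
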