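import Pool.Agent.V7H69.EL.Poi
import Pool.Agent.V7H69.EL.Red
import Pool.Agent.N483.KM.Gbs

/-!
# Bodies defined by few inequalities between functions with pinched curvature
-/

set_option autoImplicit false

namespace Pool.Agent.V7H69.EL

open MeasureTheory Set Filter Topology
open scoped ENNReal InnerProductSpace
open Pool.Agent.R754.KG (E un sl Rv un_prob)
open Pool.Agent.R755.KF
open Pool.Agent.R755.KS
open Pool.Agent.Y506.RG (EW VW Adm Star)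
open Pool.Agent.Y506.PV (CcW ind)
open Pool.Agent.N483.KM (KMW Micro micro_km Cy cyR cclR)

/-- the coordinates `(x, 0) ↦ x` -/
def noPar (m : ℕ) : (E m × E 0) ≃ₗ[ℝ] E m where
  toFun z := z.1
  map_add' _ _ := rfl
  map_smul' _ _ := rfl
  invFun x := (x, 0)
  left_inv _ := Prod.ext rfl (Subsingleton.elim _ _)
  right_inv _ := rfl

theorem gw_eq {r m : ℕ} (S : Fin r → E m → ℝ) (l : Fin r → ℝ) (a : E 0) :
    Pool.Agent.N483.KM.gw (noPar m) S l a = gb S l := by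
  funext z
  unfold Pool.Agent.N483.KM.gw gb
  have h1 : ((noPar m).symm z).2 = 0 := rfl
  rw [h1, inner_zero_right, add_zero]

theorem Mid.adm {n : ℕ} {κ : ℝ} {S : Eu n ≃L[ℝ] Eu n} {w : Eu n → ℝ} (h : Mid κ S w) : Adm w where
  nonneg := fun x => (h.pos x).le
  int := h.int
  pos := h.ipos
  meas := h.cont.measurable

/-- sets defined by nonnegative functions with pinched curvature -/
theorem micro_pin {κ : ℝ} (hκ : 0 < κ) {r m : ℕ} {k : Fin r → ℕ}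
    {B : ∀ j, Eu m →ₗ[ℝ] Eu (k j)} {S : Fin r → Eu m → ℝ} (h : ∀ j, PinB κ (B j) (S j))
    (h0 : ∀ j x, 0 ≤ S j x) {e : Fin r → ℝ} (hb : Bornology.IsBounded {x | ∀ j, S j x ≤ e j})
    (hx : ∃ x, ∀ j, S j x < e j) (hm : 1 ≤ m) :
    Micro (fun _ => 2 * κ ^ 2) r 0 m {x | ∀ j, S j x ≤ e j} := by
  obtain ⟨x₀, hx₀⟩ := hx
  have hB := ker_triv h h0 hb (fun j => (hx₀ j).le)
  refine ⟨hm, m, noPar m, S, e, fun j => (h j).cvx hκ, h0, sub_bdd hκ h h0 hB, ⟨x₀, hx₀⟩,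
    fun l a hl => ?_, rfl⟩
  rw [gw_eq]
  obtain ⟨T, hT⟩ := gb_mid hκ h h0 hB hl
  refine ⟨hT.adm, fun δ hδ => ?_⟩
  intro k P s hs hv v C hvd hv1 hvl
  have h1 := hT.kls (by positivity) P hs hv hvd hv1 hvl
  linarith

/-- bounded sets with interior points defined by `r` nonnegative functions with pinched curvature -/
def Ps (κ : ℝ) (r m : ℕ) (K : Set (E m)) : Prop :=
  Bornology.IsBounded K ∧ (interior K).Nonempty ∧ ∃ (k : Fin r → ℕ)
    (B : ∀ j, Eu m →ₗ[ℝ] Eu (k j)) (S : Fin r → Eu m → ℝ) (e : Fin r → ℝ),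
    (∀ j, PinB κ (B j) (S j)) ∧ (∀ j x, 0 ≤ S j x) ∧ K = {x | ∀ j, S j x ≤ e j}

/-- the same without the condition on the sign -/
def Pn (κ : ℝ) (r m : ℕ) (K : Set (E m)) : Prop :=
  Bornology.IsBounded K ∧ (interior K).Nonempty ∧ ∃ (k : Fin r → ℕ)
    (B : ∀ j, Eu m →ₗ[ℝ] Eu (k j)) (S : Fin r → Eu m → ℝ) (e : Fin r → ℝ),
    (∀ j, PinB κ (B j) (S j)) ∧ K = {x | ∀ j, S j x ≤ e j}

theorem Pn.body {κ : ℝ} (hκ : 0 < κ) {r m : ℕ} {K : Set (E m)} (h : Pn κ r m K) :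
    IsCompact K ∧ Convex ℝ K ∧ (interior K).Nonempty := by
  obtain ⟨hb, hi, k, B, S, e, h1, rfl⟩ := h
  have hc : ∀ j, Continuous (S j) := fun j => ((h1 j).cvx hκ).locallyLipschitz.continuous
  refine ⟨Metric.isCompact_of_isClosed_isBounded ?_ hb, ?_, hi⟩
  · have e1 : {x : E m | ∀ j, S j x ≤ e j} = ⋂ j, {x : E m | S j x ≤ e j} := by
      ext x
      simp
    rw [e1]
    exact isClosed_iInter fun j => isClosed_le (hc j) continuous_const
  · intro x hx y hy a b ha hb' hab j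
    have h6 := ((h1 j).cvx hκ).2 (mem_univ x) (mem_univ y) ha hb' hab
    have hx' : S j x ≤ e j := hx j
    have hy' : S j y ≤ e j := hy j
    simp only [smul_eq_mul] at h6
    calc S j (a • x + b • y) ≤ a * S j x + b * S j y := h6
      _ ≤ a * e j + b * e j := by gcongr
      _ = e j := by rw [← add_mul, hab, one_mul]

theorem Ps.pn {κ : ℝ} {r m : ℕ} {K : Set (E m)} (h : Ps κ r m K) : Pn κ r m K := by
  obtain ⟨hb, hi, k, B, S, e, h1, -, h3⟩ := h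
  exact ⟨hb, hi, k, B, S, e, h1, h3⟩

/-- everything is constant on `ℝ^0` -/
theorem km_zero {A δ : ℝ} (hA : 0 ≤ A) (hδ : 0 ≤ δ) {K : Set (E 0)} (h0 : volume K ≠ 0)
    (h1 : volume K ≠ ⊤) : KM A δ (un K) := by
  have hp := un_prob (V := E 0) h0 h1
  intro k P s hs hv C v hvb hv1
  have e1 : ∀ t : E 0, v (P t) = v (P 0) := fun t => by rw [Subsingleton.elim t 0]
  have e2 : (∫ t, v (P t) ^ 2 ∂(un K)) - (∫ t, v (P t) ∂(un K)) ^ 2 = 0 := by
    simp only [e1]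
    simp
  rw [e2]
  have h3 : 0 ≤ ∫ t, ‖fderiv ℝ v (P t)‖ ^ 2 ∂(un K) := integral_nonneg fun t => by positivity
  positivity

/-- the base of the class -/
theorem ps_km (κ : ℝ) (hκ : 0 < κ) (r : ℕ) : ∃ A : ℝ → ℝ, (∀ δ, 0 < A δ) ∧ ∀ (m : ℕ)
    (K : Set (E m)), Ps κ r m K → ∀ δ : ℝ, 0 < δ → KM (A δ) δ (un K) := by
  obtain ⟨A, hA, H⟩ := micro_km (fun _ => 2 * κ ^ 2) r 0
  refine ⟨A, hA, fun m K hK δ hδ => ?_⟩
  obtain ⟨c1, -, c3⟩ := hK.pn.body hκ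
  obtain ⟨hb, hi, k, B, S, e, h1, h2, rfl⟩ := hK
  rcases Nat.eq_zero_or_pos m with hm | hm
  · subst hm
    refine km_zero (hA δ).le hδ.le ?_ c1.measure_lt_top.ne
    exact (lt_of_lt_of_le (isOpen_interior.measure_pos volume c3)
      (measure_mono interior_subset)).ne'
  · obtain ⟨k', B', S', e', i1, i2, i3, i4⟩ := slater hκ h1 h2 hi
    rw [i4] at hb ⊢
    exact (H m _ (micro_pin hκ i1 i2 hb i3 hm)).2.2.2 δ hδ

/-- coordinates in which a linear map to a space of dimension `r` depends only on at most `r`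
coordinates -/
theorem coords {m : ℕ} {F : Type} [AddCommGroup F] [Module ℝ F] [FiniteDimensional ℝ F]
    (A : E m →ₗ[ℝ] F) : ∃ (N ρ : ℕ) (w : E N →ₗ[ℝ] E m)
    (w' : E ρ →ₗ[ℝ] E m) (e : (E N × E ρ) ≃ₗ[ℝ] E m), ρ ≤ Module.finrank ℝ F ∧
    (∀ x, A (w x) = 0) ∧ ∀ x t, e (x, t) = w x + w' t := by
  obtain ⟨W', hW⟩ := Submodule.exists_isCompl (LinearMap.ker A)
  let e1 : E (Module.finrank ℝ (LinearMap.ker A)) ≃ₗ[ℝ] LinearMap.ker A :=
    LinearEquiv.ofFinrankEq _ _ (by simp)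
  let e2 : E (Module.finrank ℝ W') ≃ₗ[ℝ] W' := LinearEquiv.ofFinrankEq _ _ (by simp)
  let e := (e1.prodCongr e2).trans (Submodule.prodEquivOfIsCompl _ _ hW)
  refine ⟨_, _, (LinearMap.ker A).subtype ∘ₗ e1.toLinearMap, W'.subtype ∘ₗ e2.toLinearMap, e,
    ?_, fun x => (e1 x).2, fun x t => ?_⟩
  · have h1 := Submodule.finrank_add_eq_of_isCompl hW
    have h2 := LinearMap.finrank_range_add_finrank_ker A
    have h3 : Module.finrank ℝ (LinearMap.range A) ≤ Module.finrank ℝ F :=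
      Submodule.finrank_le _
    omega
  · rfl

/-- without the condition on the sign -/
theorem pn_cy {κ : ℝ} (hκ : 0 < κ) {r : ℕ} {A : ℝ → ℝ} (HA : ∀ (m : ℕ)
    (K : Set (E m)), Ps κ r m K → ∀ δ : ℝ, 0 < δ → KM (A δ) δ (un K)) {Q ε : ℝ} (hε : ε ≤ 1)
    {d p : ℕ} (hd : r ≤ d) {m : ℕ} {K : Set (E m)} (hK : Pn κ r m K) : Cy A Q ε d p 1 m K := by
  obtain ⟨b1, b2, b3⟩ := hK.body hκ
  obtain ⟨hb, hi, k, B, S, e, h1, hKe⟩ := hK
  choose f c hf using fun j => (h1 j).minor hκ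
  obtain ⟨N, ρ, w, w', ψ, hρ, hw, hψ⟩ := coords (LinearMap.pi f)
  rw [Module.finrank_fin_fun] at hρ
  have hF := cb_pre ψ b1 b2 b3
  obtain ⟨t, ht0, ht⟩ := Pool.Agent.N348.KM.MXF.t_MXF N ρ (ψ ⁻¹' K) hF
  refine .ext 0 N ρ m K ψ t (hρ.trans hd) b1 b2 b3 (fun t' => ?_) ?_
  · have h2 : 0 ≤ Rv (ψ ⁻¹' K) t' := Pool.Agent.R754.KG.R_nonneg t'
    calc ε * Rv (ψ ⁻¹' K) t' ≤ 1 * Rv (ψ ⁻¹' K) t' := by gcongr
      _ = Rv (ψ ⁻¹' K) t' := one_mul _
      _ ≤ _ := ht t'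
  · have hv : volume (sl (ψ ⁻¹' K) t) ≠ 0 := Pool.Agent.N483.KM.vol_ne_of_pos ht0
    have hc := sl_conv hF t
    have hcp := sl_comp hF t
    have hint := int_of_vol hc hv
    refine .base N _ hcp hc hint (HA N _ ⟨hcp.isBounded, hint, k, fun j => B j ∘ₗ w,
      fun j x => S j (w x + w' t) + (-(f j (w' t)) - c j),
      fun j => e j + (-(f j (w' t)) - c j), fun j => (h1 j).restr w _ _, fun j x => ?_, ?_⟩)
    · have h3 := hf j (w x + w' t)
      have h4 : f j (w x) = 0 := congrFun (hw x) j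
      rw [map_add, h4] at h3
      linarith
    · ext x
      change ψ (x, t) ∈ K ↔ _
      rw [hψ, hKe]
      change (∀ j, S j (w x + w' t) ≤ e j) ↔ ∀ j, _
      refine forall_congr' fun j => ?_
      constructor
      · intro h
        linarith
      · intro h
        linarith

/-- bodies fibred over few parameters, with one large fibre of the class -/
def Fb (κ ε : ℝ) (r d m : ℕ) (K : Set (E m)) : Prop :=
  IsCompact K ∧ Convex ℝ K ∧ (interior K).Nonempty ∧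
  ∃ (N j : ℕ) (ψ : (E N × E j) ≃ₗ[ℝ] E m) (t : E j), j ≤ d ∧
    (∀ t', ε * Rv (ψ ⁻¹' K) t' ≤ Rv (ψ ⁻¹' K) t) ∧ Pn κ r N (sl (ψ ⁻¹' K) t)

theorem fb_star (κ ε : ℝ) (hκ : 0 < κ) (hε : 0 < ε) (r d p : ℕ) : ∃ c : ℝ, 0 < c ∧
    ∀ (m n : ℕ) (K : Set (E m)) (T : E m →ₗ[ℝ] E n) (w : E n), Fb κ ε r d m K → m ≤ n + p →
    Function.Surjective T →
    IsCompact ((fun x => w + T x) '' K) ∧ Convex ℝ ((fun x => w + T x) '' K) ∧
    (interior ((fun x => w + T x) '' K)).Nonempty ∧ Star c (ind ((fun x => w + T x) '' K)) := by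
  obtain ⟨A, hA, HA⟩ := ps_km κ hκ r
  have hε' : 0 < min ε 1 := lt_min hε one_pos
  obtain ⟨c, hc, Hc⟩ := cyR cclR A 1 (min ε 1) one_pos hε' (max d r) p 3
  refine ⟨c, hc, fun m n K T w hK hm hT => ?_⟩
  obtain ⟨b1, b2, b3, N, j, ψ, t, hj, ht, hP⟩ := hK
  have h1 : Cy A 1 (min ε 1) (max d r) p 1 N (sl (ψ ⁻¹' K) t) :=
    pn_cy hκ HA (min_le_right _ _) (le_max_right _ _) hP
  have h2 : Cy A 1 (min ε 1) (max d r) p 2 m K := by
    refine .ext 1 N j m K ψ t (hj.trans (le_max_left _ _)) b1 b2 b3 (fun t' => ?_) h1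
    have h2 : 0 ≤ Rv (ψ ⁻¹' K) t' := Pool.Agent.R754.KG.R_nonneg t'
    calc min ε 1 * Rv (ψ ⁻¹' K) t' ≤ ε * Rv (ψ ⁻¹' K) t' := by
          gcongr
          exact min_le_left _ _
      _ ≤ _ := ht t'
  exact Hc _ _ (.image _ _ _ _ T w hm hT h2)

end Pool.Agent.V7H69.EL
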