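import Pool.Agent.V7H69.EL.Mid

/-!
# Functions with pinched curvature and their Gibbs densities
-/

set_option autoImplicit false

namespace Pool.Agent.V7H69.EL

open MeasureTheory Set Filter Topology
open scoped InnerProductSpace

/-- `S - κ⁻¹ ‖B x‖²` and `κ ‖B x‖² - S` are convex -/
structure PinB (κ : ℝ) {m k : ℕ} (B : Eu m →ₗ[ℝ] Eu k) (S : Eu m → ℝ) : Prop where
  lower : ConvexOn ℝ univ fun x => S x - κ⁻¹ * ‖B x‖ ^ 2
  upper : ConvexOn ℝ univ fun x => κ * ‖B x‖ ^ 2 - S x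

variable {m : ℕ} {κ : ℝ}

theorem par {k : ℕ} (B : Eu m →ₗ[ℝ] Eu k) (x y : Eu m) :
    ‖B x‖ ^ 2 + ‖B y‖ ^ 2 - 2 * ‖B ((1 / 2 : ℝ) • (x + y))‖ ^ 2 = ‖B (x - y)‖ ^ 2 / 2 := by
  have p1 := parallelogram_law_with_norm ℝ (B x) (B y)
  rw [← map_add, ← map_sub] at p1
  have e3 : x + y = (2 : ℝ) • ((1 / 2 : ℝ) • (x + y)) := by module
  have e4 : ‖B (x + y)‖ = 2 * ‖B ((1 / 2 : ℝ) • (x + y))‖ := by
    conv_lhs => rw [e3]
    rw [map_smul, norm_smul, Real.norm_ofNat]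
  rw [e4] at p1
  nlinarith

theorem mid_cv {f : Eu m → ℝ} (hf : ConvexOn ℝ univ f) (x y : Eu m) :
    2 * f ((1 / 2 : ℝ) • (x + y)) ≤ f x + f y := by
  have h := hf.2 (mem_univ x) (mem_univ y) (by norm_num : (0 : ℝ) ≤ 1 / 2)
    (by norm_num : (0 : ℝ) ≤ 1 / 2) (by norm_num)
  rw [← smul_add] at h
  simp only [smul_eq_mul] at h
  linarith

theorem PinB.low {k : ℕ} {B : Eu m →ₗ[ℝ] Eu k} {S : Eu m → ℝ} (h : PinB κ B S) (x y : Eu m) :
    κ⁻¹ * (‖B (x - y)‖ ^ 2 / 2) ≤ S x + S y - 2 * S ((1 / 2 : ℝ) • (x + y)) := by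
  have h1 := mid_cv h.lower x y
  rw [← par B x y]
  nlinarith

theorem PinB.up {k : ℕ} {B : Eu m →ₗ[ℝ] Eu k} {S : Eu m → ℝ} (h : PinB κ B S) (x y : Eu m) :
    S x + S y - 2 * S ((1 / 2 : ℝ) • (x + y)) ≤ κ * (‖B (x - y)‖ ^ 2 / 2) := by
  have h1 := mid_cv h.upper x y
  rw [← par B x y]
  nlinarith

theorem cvx_sq {k : ℕ} (B : Eu m →ₗ[ℝ] Eu k) : ConvexOn ℝ univ fun x => ‖B x‖ ^ 2 := by
  have h := (convexOn_univ_norm (E := Eu k)).comp_linearMap B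
  rw [preimage_univ] at h
  exact h.pow (fun x _ => norm_nonneg _) 2

theorem PinB.cvx {k : ℕ} {B : Eu m →ₗ[ℝ] Eu k} {S : Eu m → ℝ} (hκ : 0 < κ) (h : PinB κ B S) :
    ConvexOn ℝ univ S := by
  have h1 := h.lower.add ((cvx_sq B).smul (inv_pos.2 hκ).le)
  refine h1.congr fun x _ => ?_
  simp only [Pi.add_apply, smul_eq_mul]
  ring

theorem PinB.bnd {k : ℕ} {B : Eu m →ₗ[ℝ] Eu k} {S : Eu m → ℝ} (hκ : 0 < κ) (h : PinB κ B S)
    (h0 : ∀ x, 0 ≤ S x) (x : Eu m) : ‖B x‖ ^ 2 ≤ 2 * κ * (S x + S 0) := by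
  have h1 := h.low x 0
  rw [sub_zero] at h1
  have h2 := h0 ((1 / 2 : ℝ) • (x + 0))
  have h3 : κ⁻¹ * (‖B x‖ ^ 2 / 2) ≤ S x + S 0 := by linarith
  have h4 : κ * (κ⁻¹ * (‖B x‖ ^ 2 / 2)) ≤ κ * (S x + S 0) := by gcongr
  rw [mul_inv_cancel_left₀ hκ.ne'] at h4
  linarith

/-- along the kernel of `B` the function does not increase -/
theorem PinB.ker {k : ℕ} {B : Eu m →ₗ[ℝ] Eu k} {S : Eu m → ℝ} (h : PinB κ B S)
    (h0 : ∀ x, 0 ≤ S x) {z : Eu m} (hz : B z = 0) (x : Eu m) : S (x + z) ≤ S x := by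
  -- concavity along the line
  have hB : ∀ t : ℝ, ‖B (x + t • z)‖ ^ 2 = ‖B x‖ ^ 2 := by
    intro t
    rw [map_add, map_smul, hz, smul_zero, add_zero]
  have hN : ∀ N : ℕ, (1 - 1 / ((N : ℝ) + 1)) * S x ≤ S (x - z) := by
    intro N
    have hNp : 0 < 1 / ((N : ℝ) + 1) := by positivity
    have hN1 : 1 / ((N : ℝ) + 1) ≤ 1 := by
      rw [div_le_one (by positivity)]
      have : (0 : ℝ) ≤ N := Nat.cast_nonneg N
      linarith
    have h1 := h.upper.2 (mem_univ x) (mem_univ (x + (-((N : ℝ) + 1)) • z))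
      (by linarith : 0 ≤ 1 - 1 / ((N : ℝ) + 1)) hNp.le (by ring)
    have e1 : (1 - 1 / ((N : ℝ) + 1)) • x + (1 / ((N : ℝ) + 1)) • (x + (-((N : ℝ) + 1)) • z) =
        x + (-1 : ℝ) • z := by
      have : (1 / ((N : ℝ) + 1)) * (-((N : ℝ) + 1)) = -1 := by field_simp
      rw [smul_add, smul_smul, this]
      module
    rw [e1] at h1
    simp only [smul_eq_mul, hB] at h1
    have h2 := h0 (x + (-((N : ℝ) + 1)) • z)
    have h3 : 0 ≤ 1 / ((N : ℝ) + 1) * S (x + (-((N : ℝ) + 1)) • z) := by positivity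
    have e2 : x + (-1 : ℝ) • z = x - z := by module
    rw [e2] at h1
    nlinarith
  have h1 : S x ≤ S (x - z) := by
    have t1 : Tendsto (fun N : ℕ => (1 - 1 / ((N : ℝ) + 1)) * S x) atTop (𝓝 ((1 - 0) * S x)) :=
      (tendsto_const_nhds.sub tendsto_one_div_add_atTop_nhds_zero_nat).mul_const _
    rw [sub_zero, one_mul] at t1
    exact le_of_tendsto' t1 hN
  have h2 := h.up (x + z) (x - z)
  have e3 : (1 / 2 : ℝ) • (x + z + (x - z)) = x := by module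
  have e4 : B (x + z - (x - z)) = 0 := by
    have : x + z - (x - z) = (2 : ℝ) • z := by module
    rw [this, map_smul, hz, smul_zero]
  rw [e3, e4, norm_zero] at h2
  nlinarith

/-- a linear change of variables realising a positive definite form -/
theorem exists_S {r : ℕ} {k : Fin r → ℕ} (B : ∀ j, Eu m →ₗ[ℝ] Eu (k j)) (c : Fin r → ℝ)
    (hc : ∀ j, 0 < c j) (hB : ∀ z, (∀ j, B j z = 0) → z = 0) :
    ∃ S : Eu m ≃L[ℝ] Eu m, ∀ z, ‖S.symm z‖ ^ 2 = ∑ j, c j * ‖B j z‖ ^ 2 := by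
  let L : Eu m →ₗ[ℝ] PiLp 2 (fun j => Eu (k j)) :=
    (WithLp.linearEquiv 2 ℝ (∀ j, Eu (k j))).symm.toLinearMap ∘ₗ
      (LinearMap.pi fun j => (Real.sqrt (c j)) • B j)
  have hL : ∀ z, ‖L z‖ ^ 2 = ∑ j, c j * ‖B j z‖ ^ 2 := by
    intro z
    rw [PiLp.norm_sq_eq_of_L2]
    refine Finset.sum_congr rfl fun j _ => ?_
    have h1 : L z j = (Real.sqrt (c j)) • B j z := rfl
    rw [h1, norm_smul, mul_pow, Real.norm_eq_abs, sq_abs, Real.sq_sqrt (hc j).le]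
  have hinj : Function.Injective L := by
    rw [← LinearMap.ker_eq_bot, LinearMap.ker_eq_bot']
    intro z hz
    have h1 := hL z
    rw [hz] at h1
    have h2 : ‖(0 : PiLp 2 (fun j => Eu (k j)))‖ ^ 2 = 0 := by simp
    rw [h2] at h1
    have h3 := (Finset.sum_eq_zero_iff_of_nonneg fun j _ =>
      mul_nonneg (hc j).le (sq_nonneg ‖B j z‖)).1 h1.symm
    refine hB z fun j => ?_
    have h4 := h3 j (Finset.mem_univ j)
    have h5 : ‖B j z‖ ^ 2 = 0 := (mul_eq_zero.1 h4).resolve_left (hc j).ne'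
    exact norm_eq_zero.1 (pow_eq_zero_iff (two_ne_zero) |>.1 h5)
  let e1 : Eu m ≃ₗ[ℝ] LinearMap.range L := LinearEquiv.ofInjective L hinj
  have hfr : Module.finrank ℝ (LinearMap.range L) = m := by
    rw [← e1.finrank_eq]; simp
  let e2 : LinearMap.range L ≃ₗᵢ[ℝ] Eu m :=
    ((stdOrthonormalBasis ℝ (LinearMap.range L)).reindex (finCongr hfr)).repr
  let e3 : Eu m ≃L[ℝ] Eu m := (e1.trans e2.toLinearEquiv).toContinuousLinearEquiv
  refine ⟨e3.symm, fun z => ?_⟩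
  have h1 : e3.symm.symm z = e2 (e1 z) := rfl
  rw [h1, e2.norm_map, ← hL z]
  rfl

/-- the joint kernel is trivial if the joint sublevel set is bounded and not empty -/
theorem ker_triv {r : ℕ} {k : Fin r → ℕ} {B : ∀ j, Eu m →ₗ[ℝ] Eu (k j)}
    {S : Fin r → Eu m → ℝ} (h : ∀ j, PinB κ (B j) (S j)) (h0 : ∀ j x, 0 ≤ S j x)
    {e : Fin r → ℝ} (hb : Bornology.IsBounded {x | ∀ j, S j x ≤ e j}) {x₀ : Eu m}
    (hx : ∀ j, S j x₀ ≤ e j) (z : Eu m) (hz : ∀ j, B j z = 0) : z = 0 := by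
  obtain ⟨R, hR⟩ := hb.exists_norm_le
  have hmem : ∀ t : ℝ, ‖x₀ + t • z‖ ≤ R := by
    intro t
    refine hR _ fun j => ?_
    refine le_trans ?_ (hx j)
    exact (h j).ker (h0 j) (by rw [map_smul, hz j, smul_zero]) x₀
  by_contra hne
  have hzp : 0 < ‖z‖ := norm_pos_iff.2 hne
  have h1 := hmem ((R + ‖x₀‖ + 1) / ‖z‖)
  have hR0 : 0 ≤ R := (norm_nonneg _).trans (hmem 0)
  have h2 : ‖((R + ‖x₀‖ + 1) / ‖z‖) • z‖ = R + ‖x₀‖ + 1 := by
    rw [norm_smul, Real.norm_eq_abs, abs_of_nonneg (by positivity)]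
    field_simp
  have h3 : ‖((R + ‖x₀‖ + 1) / ‖z‖) • z‖ ≤ ‖x₀ + ((R + ‖x₀‖ + 1) / ‖z‖) • z‖ + ‖x₀‖ := by
    have h4 := norm_sub_le (x₀ + ((R + ‖x₀‖ + 1) / ‖z‖) • z) x₀
    rwa [add_sub_cancel_left] at h4
  linarith

/-- the Gibbs densities -/
noncomputable def gb {r : ℕ} (S : Fin r → Eu m → ℝ) (l : Fin r → ℝ) (x : Eu m) : ℝ :=
  Real.exp (-∑ j, l j * S j x)

/-- the Gibbs densities have pinched curvature -/
theorem gb_mid {r : ℕ} {k : Fin r → ℕ} {B : ∀ j, Eu m →ₗ[ℝ] Eu (k j)}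
    {S : Fin r → Eu m → ℝ} (hκ : 0 < κ) (h : ∀ j, PinB κ (B j) (S j)) (h0 : ∀ j x, 0 ≤ S j x)
    (hB : ∀ z, (∀ j, B j z = 0) → z = 0) {l : Fin r → ℝ} (hl : ∀ j, 0 < l j) :
    ∃ T : Eu m ≃L[ℝ] Eu m, Mid (κ ^ 2) T (gb S l) := by
  obtain ⟨T, hT⟩ := exists_S B (fun j => 2 / κ * l j) (fun j => by have := hl j; positivity) hB
  have hS : ∀ j, Continuous (S j) := fun j => ((h j).cvx hκ).locallyLipschitz.continuous
  refine ⟨T, fun x => Real.exp_pos _, ?_, ⟨1, fun x => ?_⟩, fun x y => ?_, fun x y => ?_⟩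
  · unfold gb
    fun_prop
  · unfold gb
    rw [Real.exp_le_one_iff]
    have : 0 ≤ ∑ j, l j * S j x := Finset.sum_nonneg fun j _ => mul_nonneg (hl j).le (h0 j x)
    linarith
  · unfold gb
    rw [← Real.exp_add, ← Real.exp_nat_mul, ← Real.exp_add, hT]
    refine Real.exp_le_exp.2 ?_
    have h1 : ∑ j, l j * (κ⁻¹ * (‖B j (x - y)‖ ^ 2 / 2)) ≤
        ∑ j, l j * (S j x + S j y - 2 * S j ((1 / 2 : ℝ) • (x + y))) :=
      Finset.sum_le_sum fun j _ => mul_le_mul_of_nonneg_left ((h j).low x y) (hl j).le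
    have e1 : ∑ j, l j * (S j x + S j y - 2 * S j ((1 / 2 : ℝ) • (x + y))) =
        ∑ j, l j * S j x + ∑ j, l j * S j y - 2 * ∑ j, l j * S j ((1 / 2 : ℝ) • (x + y)) := by
      rw [Finset.mul_sum, ← Finset.sum_add_distrib, ← Finset.sum_sub_distrib]
      exact Finset.sum_congr rfl fun j _ => by ring
    have e2 : ∑ j, l j * (κ⁻¹ * (‖B j (x - y)‖ ^ 2 / 2)) =
        (∑ j, 2 / κ * l j * ‖B j (x - y)‖ ^ 2) / 4 := by
      rw [Finset.sum_div]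
      exact Finset.sum_congr rfl fun j _ => by ring
    rw [e1, e2] at h1
    push_cast
    linarith
  · unfold gb
    rw [← Real.exp_add, ← Real.exp_nat_mul, ← Real.exp_add, hT]
    refine Real.exp_le_exp.2 ?_
    have h1 : ∑ j, l j * (S j x + S j y - 2 * S j ((1 / 2 : ℝ) • (x + y))) ≤
        ∑ j, l j * (κ * (‖B j (x - y)‖ ^ 2 / 2)) :=
      Finset.sum_le_sum fun j _ => mul_le_mul_of_nonneg_left ((h j).up x y) (hl j).le
    have e1 : ∑ j, l j * (S j x + S j y - 2 * S j ((1 / 2 : ℝ) • (x + y))) =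
        ∑ j, l j * S j x + ∑ j, l j * S j y - 2 * ∑ j, l j * S j ((1 / 2 : ℝ) • (x + y)) := by
      rw [Finset.mul_sum, ← Finset.sum_add_distrib, ← Finset.sum_sub_distrib]
      exact Finset.sum_congr rfl fun j _ => by ring
    have e2 : ∑ j, l j * (κ * (‖B j (x - y)‖ ^ 2 / 2)) =
        κ ^ 2 * ((∑ j, 2 / κ * l j * ‖B j (x - y)‖ ^ 2) / 4) := by
      rw [Finset.sum_div, Finset.mul_sum]
      refine Finset.sum_congr rfl fun j _ => ?_
      field_simp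
      ring
    rw [e1, e2] at h1
    push_cast
    linarith

/-- all joint sublevel sets are bounded -/
theorem sub_bdd {r : ℕ} {k : Fin r → ℕ} {B : ∀ j, Eu m →ₗ[ℝ] Eu (k j)}
    {S : Fin r → Eu m → ℝ} (hκ : 0 < κ) (h : ∀ j, PinB κ (B j) (S j)) (h0 : ∀ j x, 0 ≤ S j x)
    (hB : ∀ z, (∀ j, B j z = 0) → z = 0) (s : Fin r → ℝ) :
    Bornology.IsBounded {x | ∀ j, S j x ≤ s j} := by
  obtain ⟨T, hT⟩ := exists_S B (fun _ => 1) (fun _ => one_pos) hB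
  rw [isBounded_iff_forall_norm_le]
  refine ⟨‖(T : Eu m →L[ℝ] Eu m)‖ * Real.sqrt (∑ j, 2 * κ * (s j + S j 0)), fun x hx => ?_⟩
  have h1 : ‖T.symm x‖ ^ 2 ≤ ∑ j, 2 * κ * (s j + S j 0) := by
    rw [hT]
    refine Finset.sum_le_sum fun j _ => ?_
    rw [one_mul]
    refine ((h j).bnd hκ (h0 j) x).trans ?_
    have := hx j
    gcongr
  have h2 : ‖T.symm x‖ ≤ Real.sqrt (∑ j, 2 * κ * (s j + S j 0)) := Real.le_sqrt_of_sq_le h1
  have h3 := (T : Eu m →L[ℝ] Eu m).le_opNorm (T.symm x)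
  have h4 : (T : Eu m →L[ℝ] Eu m) (T.symm x) = x := by simp
  rw [h4] at h3
  exact h3.trans (by gcongr)

end Pool.Agent.V7H69.EL
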