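import Mathlib

/-!
# Densities with pinched curvature: Gaussian decay and the variance of linear functionals from below

`w = exp (-V)` on `ℝ^n` where `V` is, in the sense of midpoints, more convex than the quadratic form
`‖S⁻¹ z‖² / 2` and less convex than `κ ‖S⁻¹ z‖² / 2`.
-/

set_option autoImplicit false

namespace Pool.Agent.V7H69.EL

open MeasureTheory Set Filter Topology
open scoped InnerProductSpace

/-- Euclidean space -/
abbrev Eu (n : ℕ) : Type := EuclideanSpace ℝ (Fin n)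

/-- `w = exp (-V)`, and the second differences of `V` are between those of `‖S⁻¹ z‖² / 2` and of
`κ ‖S⁻¹ z‖² / 2` -/
structure Mid {n : ℕ} (κ : ℝ) (S : Eu n ≃L[ℝ] Eu n) (w : Eu n → ℝ) : Prop where
  pos : ∀ x, 0 < w x
  cont : Continuous w
  bdd : ∃ B, ∀ x, w x ≤ B
  lower : ∀ x y, w x * w y ≤ (w ((1 / 2 : ℝ) • (x + y))) ^ 2 *
    Real.exp (-(‖S.symm (x - y)‖ ^ 2 / 4))
  upper : ∀ x y, (w ((1 / 2 : ℝ) • (x + y))) ^ 2 *
    Real.exp (-(κ * (‖S.symm (x - y)‖ ^ 2 / 4))) ≤ w x * w y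

variable {n : ℕ} {κ : ℝ} {S : Eu n ≃L[ℝ] Eu n} {w : Eu n → ℝ}

theorem Mid.decay (h : Mid κ S w) : ∃ C c : ℝ, 0 < C ∧ 0 < c ∧
    ∀ x, w x ≤ C * Real.exp (-(c * ‖x‖ ^ 2)) := by
  obtain ⟨B, hB⟩ := h.bdd
  have hw0 := h.pos 0
  have hB0 : 0 < B := hw0.trans_le (hB 0)
  set s : ℝ := ‖(S : Eu n →L[ℝ] Eu n)‖ + 1 with hs
  have hs0 : 0 < s := by positivity
  refine ⟨B ^ 2 / w 0, 1 / (4 * s ^ 2), by positivity, by positivity, fun x => ?_⟩
  have h1 := h.lower x 0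
  rw [sub_zero] at h1
  have h2 : ‖x‖ ≤ s * ‖S.symm x‖ := by
    have h3 := (S : Eu n →L[ℝ] Eu n).le_opNorm (S.symm x)
    have h4 : (S : Eu n →L[ℝ] Eu n) (S.symm x) = x := by simp
    rw [h4] at h3
    refine h3.trans ?_
    have := norm_nonneg (S.symm x)
    rw [hs]
    nlinarith
  have h5 : 1 / (4 * s ^ 2) * ‖x‖ ^ 2 ≤ ‖S.symm x‖ ^ 2 / 4 := by
    rw [div_mul_eq_mul_div, one_mul, div_le_div_iff₀ (by positivity) (by norm_num)]
    have h6 : ‖x‖ ^ 2 ≤ (s * ‖S.symm x‖) ^ 2 := by gcongr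
    nlinarith
  have h7 : (w ((1 / 2 : ℝ) • (x + 0))) ^ 2 ≤ B ^ 2 := by
    have := (h.pos ((1 / 2 : ℝ) • (x + 0))).le
    have := hB ((1 / 2 : ℝ) • (x + 0))
    gcongr
  have h8 : w x * w 0 ≤ B ^ 2 * Real.exp (-(1 / (4 * s ^ 2) * ‖x‖ ^ 2)) := by
    refine h1.trans ?_
    gcongr
  rw [div_mul_eq_mul_div, le_div_iff₀ hw0]
  exact h8

theorem int_gauss {c : ℝ} (hc : 0 < c) :
    Integrable fun x : Eu n => Real.exp (-(c * ‖x‖ ^ 2)) := by
  have h := GaussianFourier.integrable_cexp_neg_mul_sq_norm_add (V := Eu n) (b := (c : ℂ))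
    (by simpa using hc) 0 0
  refine h.norm.congr (Eventually.of_forall fun x => ?_)
  simp only [zero_mul, add_zero]
  rw [Complex.norm_exp]
  congr 1
  have : (-(c : ℂ) * (‖x‖ : ℂ) ^ 2) = ((-(c * ‖x‖ ^ 2) : ℝ) : ℂ) := by push_cast; ring
  rw [this, Complex.ofReal_re]

theorem Mid.int (h : Mid κ S w) : Integrable fun x => (1 + ‖x‖ ^ 2) * w x := by
  obtain ⟨C, c, hC, hc, hd⟩ := h.decay
  have hi := (int_gauss (n := n) (c := c / 2) (by positivity)).const_mul (C * (1 + 2 / c))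
  refine hi.mono' ?_ (Eventually.of_forall fun x => ?_)
  · exact ((by fun_prop : Continuous fun x : Eu n => (1 + ‖x‖ ^ 2)).mul h.cont).aestronglyMeasurable
  · have hp := (h.pos x).le
    rw [Real.norm_eq_abs, abs_of_nonneg (by positivity)]
    have e1 : Real.exp (-(c * ‖x‖ ^ 2)) = Real.exp (-(c / 2 * ‖x‖ ^ 2)) *
        Real.exp (-(c / 2 * ‖x‖ ^ 2)) := by
      rw [← Real.exp_add]; congr 1; ring
    have e2 : (1 + ‖x‖ ^ 2) * Real.exp (-(c / 2 * ‖x‖ ^ 2)) ≤ 1 + 2 / c := by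
      have e3 : Real.exp (-(c / 2 * ‖x‖ ^ 2)) ≤ 1 := Real.exp_le_one_iff.2 (by
        have : 0 ≤ c / 2 * ‖x‖ ^ 2 := by positivity
        linarith)
      have e4 : ‖x‖ ^ 2 * Real.exp (-(c / 2 * ‖x‖ ^ 2)) ≤ 2 / c := by
        have e5 : c / 2 * ‖x‖ ^ 2 ≤ Real.exp (c / 2 * ‖x‖ ^ 2) := by
          have := Real.add_one_le_exp (c / 2 * ‖x‖ ^ 2)
          linarith
        rw [Real.exp_neg, ← div_eq_mul_inv, div_le_iff₀ (Real.exp_pos _)]
        calc ‖x‖ ^ 2 = 2 / c * (c / 2 * ‖x‖ ^ 2) := by field_simp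
          _ ≤ _ := by gcongr
      linarith
    calc (1 + ‖x‖ ^ 2) * w x ≤ (1 + ‖x‖ ^ 2) * (C * Real.exp (-(c * ‖x‖ ^ 2))) := by
          gcongr; exact hd x
      _ = C * ((1 + ‖x‖ ^ 2) * Real.exp (-(c / 2 * ‖x‖ ^ 2))) *
          Real.exp (-(c / 2 * ‖x‖ ^ 2)) := by rw [e1]; ring
      _ ≤ C * (1 + 2 / c) * Real.exp (-(c / 2 * ‖x‖ ^ 2)) := by gcongr

/-- integrability against `w` of continuous functions of quadratic growth -/
theorem Mid.intg (h : Mid κ S w) {f : Eu n → ℝ} (hf : Continuous f) (K : ℝ)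
    (hK : ∀ x, |f x| ≤ K * (1 + ‖x‖ ^ 2)) : Integrable fun x => f x * w x := by
  refine (h.int.const_mul K).mono' (hf.mul h.cont).aestronglyMeasurable
    (Eventually.of_forall fun x => ?_)
  rw [Real.norm_eq_abs, abs_mul, abs_of_pos (h.pos x), ← mul_assoc]
  exact mul_le_mul_of_nonneg_right (hK x) (h.pos x).le

theorem Mid.int0 (h : Mid κ S w) : Integrable w := by
  have := h.intg (f := fun _ => 1) continuous_const 1 (fun x => by
    rw [abs_one]; nlinarith [sq_nonneg ‖x‖])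
  simpa using this

theorem Mid.ipos (h : Mid κ S w) : 0 < ∫ x, w x := by
  rw [integral_pos_iff_support_of_nonneg (fun x => (h.pos x).le) h.int0]
  have h1 : Function.support w = univ := by
    ext x; simp [(h.pos x).ne']
  rw [h1]
  exact NeZero.pos _

/-- the pointwise inequality behind the lower bound of the variance -/
theorem pw {a b g t lam : ℝ} (ha : 0 < a) (hb : 0 < b) (hlam : 0 < lam)
    (hg : g ^ 2 ≤ a * b) :
    t * (a - b) ≤ lam * (t ^ 2 * (a + b)) + 1 / (2 * lam) * (a + b - 2 * g) := by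
  have h1 : g ≤ Real.sqrt a * Real.sqrt b := by
    rw [← Real.sqrt_mul ha.le]
    exact Real.le_sqrt_of_sq_le hg
  obtain ⟨p, hp⟩ : ∃ p, p = Real.sqrt a := ⟨_, rfl⟩
  obtain ⟨q, hq⟩ : ∃ q, q = Real.sqrt b := ⟨_, rfl⟩
  have hpa : a = p ^ 2 := by rw [hp, Real.sq_sqrt ha.le]
  have hqb : b = q ^ 2 := by rw [hq, Real.sq_sqrt hb.le]
  have hp0 : 0 < p := by rw [hp]; exact Real.sqrt_pos.2 ha
  have hq0 : 0 < q := by rw [hq]; exact Real.sqrt_pos.2 hb
  rw [← hp, ← hq] at h1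
  rw [hpa, hqb]
  have h2 : 1 / (2 * lam) * (p - q) ^ 2 ≤ 1 / (2 * lam) * (p ^ 2 + q ^ 2 - 2 * g) := by
    have : (p - q) ^ 2 ≤ p ^ 2 + q ^ 2 - 2 * g := by nlinarith
    gcongr
  have h3 : t * (p ^ 2 - q ^ 2) ≤ lam / 2 * (t * (p + q)) ^ 2 + 1 / (2 * lam) * (p - q) ^ 2 := by
    have h4 : 0 ≤ (lam * (t * (p + q)) - (p - q)) ^ 2 / (2 * lam) := by positivity
    have h5 : (lam * (t * (p + q)) - (p - q)) ^ 2 / (2 * lam) =
        lam / 2 * (t * (p + q)) ^ 2 + 1 / (2 * lam) * (p - q) ^ 2 - t * (p ^ 2 - q ^ 2) := by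
      field_simp
      ring
    linarith
  have h6 : lam / 2 * (t * (p + q)) ^ 2 ≤ lam * (t ^ 2 * (p ^ 2 + q ^ 2)) := by
    have : (p + q) ^ 2 ≤ 2 * (p ^ 2 + q ^ 2) := by nlinarith [sq_nonneg (p - q)]
    have h7 : (t * (p + q)) ^ 2 ≤ 2 * (t ^ 2 * (p ^ 2 + q ^ 2)) := by
      rw [mul_pow]
      nlinarith [sq_nonneg t]
    nlinarith
  linarith

/-- **lower bound for the variance of a linear functional** (in terms of moments) -/
theorem Mid.var_low (h : Mid κ S w) (hκ : 0 < κ) (u a : Eu n)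
    (ha : ‖S.symm a‖ ^ 2 = ⟪a, u⟫_ℝ) (m : ℝ) (hm : ∫ x, ⟪x, u⟫_ℝ * w x = m * ∫ x, w x) :
    ⟪a, u⟫_ℝ * ∫ x, w x ≤ 2 * κ * ∫ x, (⟪x, u⟫_ℝ - m) ^ 2 * w x := by
  have hZ := h.ipos
  set D : ℝ := ⟪a, u⟫_ℝ with hD
  have hV0 : 0 ≤ ∫ x, (⟪x, u⟫_ℝ - m) ^ 2 * w x :=
    integral_nonneg fun x => mul_nonneg (sq_nonneg _) (h.pos x).le
  rcases (show 0 ≤ D by rw [← ha]; positivity).eq_or_lt with h0 | h0
  · rw [← h0, zero_mul]; positivity
  -- the scale
  obtain ⟨τ, hτ0, hτ⟩ : ∃ τ : ℝ, 0 < τ ∧ τ ^ 2 = 1 / (2 * κ * D) :=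
    ⟨Real.sqrt (1 / (2 * κ * D)), Real.sqrt_pos.2 (by positivity), Real.sq_sqrt (by positivity)⟩
  have hτ2 : κ * τ ^ 2 * D = 1 / 2 := by rw [hτ]; field_simp
  set lam : ℝ := κ * τ / 2 with hlam
  have hlam0 : 0 < lam := by positivity
  set l : Eu n → ℝ := fun x => ⟪x, u⟫_ℝ - m with hl
  have hlc : Continuous l := by rw [hl]; fun_prop
  -- growth
  have hlb : ∀ x, |l x| ≤ (‖u‖ + |m|) * (1 + ‖x‖ ^ 2) := by
    intro x
    have h1 : |⟪x, u⟫_ℝ| ≤ ‖x‖ * ‖u‖ := abs_real_inner_le_norm _ _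
    have h2 : |l x| ≤ |⟪x, u⟫_ℝ| + |m| := abs_sub _ _
    have h3 : ‖x‖ ≤ 1 + ‖x‖ ^ 2 := by nlinarith [sq_nonneg (‖x‖ - 1)]
    have h4 : (1 : ℝ) ≤ 1 + ‖x‖ ^ 2 := by nlinarith [sq_nonneg ‖x‖]
    have h5 := norm_nonneg u
    have h6 := abs_nonneg m
    nlinarith
  have hl2b : ∀ x, |l x ^ 2| ≤ (2 * (‖u‖ ^ 2 + |m| ^ 2)) * (1 + ‖x‖ ^ 2) := by
    intro x
    rw [abs_of_nonneg (sq_nonneg _)]
    have h1 : |⟪x, u⟫_ℝ| ≤ ‖x‖ * ‖u‖ := abs_real_inner_le_norm _ _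
    have h2 : ⟪x, u⟫_ℝ ^ 2 ≤ (‖x‖ * ‖u‖) ^ 2 := by
      rw [← sq_abs ⟪x, u⟫_ℝ]
      gcongr
    have h3 : l x ^ 2 ≤ 2 * (⟪x, u⟫_ℝ ^ 2 + |m| ^ 2) := by
      rw [hl, sq_abs]
      simp only
      nlinarith [sq_nonneg (⟪x, u⟫_ℝ + m)]
    have h4 : 0 ≤ ‖x‖ ^ 2 * |m| ^ 2 := by positivity
    nlinarith [sq_nonneg ‖u‖]
  -- shifted integrals
  have hsh : ∀ (c : ℝ) (F : Eu n → ℝ), ∫ x, F x * w (x - c • a) = ∫ x, F (x + c • a) * w x := by
    intro c F
    have := integral_add_right_eq_self (μ := (volume : Measure (Eu n)))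
      (fun x => F x * w (x - c • a)) (c • a)
    rw [← this]
    simp
  have hla : ∀ (c : ℝ) x, l (x + c • a) = l x + c * D := by
    intro c x
    simp only [hl, inner_add_left, inner_smul_left, hD]
    simp
    ring
  have i0 := h.int0
  have i1 : Integrable fun x => l x * w x := h.intg hlc _ hlb
  have i2 : Integrable fun x => l x ^ 2 * w x := h.intg (hlc.pow 2) _ hl2b
  have hM : ∫ x, l x * w x = 0 := by
    have h1 : ∀ x, l x * w x = ⟪x, u⟫_ℝ * w x - m * w x := fun x => by simp only [hl]; ring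
    have hib : Integrable fun x => ⟪x, u⟫_ℝ * w x := by
      refine h.intg (by fun_prop) ‖u‖ fun x => ?_
      refine (abs_real_inner_le_norm _ _).trans ?_
      have h3 : ‖x‖ ≤ 1 + ‖x‖ ^ 2 := by nlinarith [sq_nonneg (‖x‖ - 1)]
      have h5 := norm_nonneg u
      nlinarith
    simp only [h1]
    rw [integral_sub hib (i0.const_mul m), integral_const_mul, hm, sub_self]
  set V : ℝ := ∫ x, l x ^ 2 * w x with hV
  set Z : ℝ := ∫ x, w x with hZdef
  have A1 : ∀ c : ℝ, ∫ x, l x * w (x - c • a) = c * D * Z := by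
    intro c
    rw [hsh c l]
    simp only [hla, add_mul]
    rw [integral_add i1 (i0.const_mul _), hM, zero_add, integral_const_mul]
  have A2 : ∀ c : ℝ, ∫ x, l x ^ 2 * w (x - c • a) = V + (c * D) ^ 2 * Z := by
    intro c
    rw [hsh c (fun x => l x ^ 2)]
    have h1 : ∀ x, l (x + c • a) ^ 2 * w x =
        l x ^ 2 * w x + 2 * (c * D) * (l x * w x) + (c * D) ^ 2 * w x := by
      intro x; rw [hla]; ring
    simp only [h1]
    have i12 : Integrable fun x => l x ^ 2 * w x + 2 * (c * D) * (l x * w x) :=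
      i2.add (i1.const_mul _)
    rw [integral_add i12 (i0.const_mul _),
      integral_add i2 (i1.const_mul _), integral_const_mul, integral_const_mul, hM, mul_zero,
      add_zero]
  have A0 : ∀ c : ℝ, ∫ x, w (x - c • a) = Z := by
    intro c
    have := hsh c (fun _ => 1)
    simpa using this
  have j0 : ∀ c : ℝ, Integrable fun x => w (x - c • a) := fun c => i0.comp_sub_right _
  have j1 : ∀ c : ℝ, Integrable fun x => l x * w (x - c • a) := by
    intro c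
    have h0 : Integrable fun y => l (y + c • a) * w y := by
      simp only [hla, add_mul]
      exact i1.add (i0.const_mul _)
    have h1 := h0.comp_sub_right (c • a)
    simpa using h1
  have j2 : ∀ c : ℝ, Integrable fun x => l x ^ 2 * w (x - c • a) := by
    intro c
    have h0 : Integrable fun y => l (y + c • a) ^ 2 * w y := by
      have h1 : ∀ x, l (x + c • a) ^ 2 * w x =
          l x ^ 2 * w x + 2 * (c * D) * (l x * w x) + (c * D) ^ 2 * w x := by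
        intro x; rw [hla]; ring
      simp only [h1]
      exact (i2.add (i1.const_mul _)).add (i0.const_mul _)
    have h1 := h0.comp_sub_right (c • a)
    simpa using h1
  -- the pointwise inequality
  set ρ : ℝ := Real.exp (-(κ * τ ^ 2 * D / 2)) with hρ
  have hρ0 : 0 < ρ := Real.exp_pos _
  have hpw : ∀ x, l x * w (x - τ • a) - l x * w (x - (-τ) • a) ≤
      lam * (l x ^ 2 * w (x - τ • a) + l x ^ 2 * w (x - (-τ) • a)) +
      1 / (2 * lam) * (w (x - τ • a) + w (x - (-τ) • a) - 2 * (ρ * w x)) := by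
    intro x
    have h1 := h.upper (x - τ • a) (x - (-τ) • a)
    have e1 : (1 / 2 : ℝ) • (x - τ • a + (x - (-τ) • a)) = x := by module
    have e2 : x - τ • a - (x - (-τ) • a) = (-(2 * τ)) • a := by module
    rw [e1, e2, map_smul, norm_smul, mul_pow, ha] at h1
    have e3 : κ * (‖-(2 * τ)‖ ^ 2 * D / 4) = κ * τ ^ 2 * D / 2 + κ * τ ^ 2 * D / 2 := by
      rw [Real.norm_eq_abs, sq_abs]; ring
    rw [e3] at h1
    have e4 : Real.exp (-(κ * τ ^ 2 * D / 2 + κ * τ ^ 2 * D / 2)) = ρ ^ 2 := by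
      rw [neg_add, Real.exp_add, ← hρ]; ring
    rw [e4] at h1
    have h2 := pw (t := l x) (h.pos (x - τ • a)) (h.pos (x - (-τ) • a)) hlam0
      (g := ρ * w x) (by rw [mul_pow]; linarith)
    calc _ = l x * (w (x - τ • a) - w (x - (-τ) • a)) := by ring
      _ ≤ _ := h2
      _ = _ := by ring
  have k1 : Integrable fun x => l x * w (x - τ • a) - l x * w (x - (-τ) • a) :=
    (j1 τ).sub (j1 (-τ))
  have k2 : Integrable fun x => l x ^ 2 * w (x - τ • a) + l x ^ 2 * w (x - (-τ) • a) :=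
    (j2 τ).add (j2 (-τ))
  have k3 : Integrable fun x => w (x - τ • a) + w (x - (-τ) • a) := (j0 τ).add (j0 (-τ))
  have k4 : Integrable fun x => 2 * (ρ * w x) := (i0.const_mul ρ).const_mul 2
  have k5 : Integrable fun x => w (x - τ • a) + w (x - (-τ) • a) - 2 * (ρ * w x) := k3.sub k4
  have k6 : Integrable fun x =>
      lam * (l x ^ 2 * w (x - τ • a) + l x ^ 2 * w (x - (-τ) • a)) +
      1 / (2 * lam) * (w (x - τ • a) + w (x - (-τ) • a) - 2 * (ρ * w x)) :=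
    (k2.const_mul _).add (k5.const_mul _)
  have hint := integral_mono k1 k6 (fun x => hpw x)
  have L : ∫ x, (l x * w (x - τ • a) - l x * w (x - (-τ) • a)) = 2 * τ * D * Z := by
    rw [integral_sub (j1 τ) (j1 (-τ)), A1, A1]
    ring
  have R : ∫ x, (lam * (l x ^ 2 * w (x - τ • a) + l x ^ 2 * w (x - (-τ) • a)) +
      1 / (2 * lam) * (w (x - τ • a) + w (x - (-τ) • a) - 2 * (ρ * w x))) =
      lam * (2 * V + 2 * (τ * D) ^ 2 * Z) + 1 / (2 * lam) * (2 * Z - 2 * (ρ * Z)) := by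
    rw [integral_add (k2.const_mul _) (k5.const_mul _), integral_const_mul, integral_const_mul,
      integral_add (j2 τ) (j2 (-τ)), integral_sub k3 k4, integral_add (j0 τ) (j0 (-τ)), A2, A2,
      A0, A0, integral_const_mul, integral_const_mul]
    ring
  have key : 2 * τ * D * Z ≤ lam * (2 * V + 2 * (τ * D) ^ 2 * Z) +
      1 / (2 * lam) * (2 * Z - 2 * (ρ * Z)) := by
    rw [← L, ← R]
    exact hint
  have hρ1 : 1 - κ * τ ^ 2 * D / 2 ≤ ρ := by
    have := Real.add_one_le_exp (-(κ * τ ^ 2 * D / 2))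
    rw [hρ]; linarith
  have h9 : 1 / (2 * lam) * (2 * Z - 2 * (ρ * Z)) ≤ τ * D * Z := by
    have h10 : 2 * Z - 2 * (ρ * Z) ≤ κ * τ ^ 2 * D * Z := by nlinarith
    calc 1 / (2 * lam) * (2 * Z - 2 * (ρ * Z)) ≤ 1 / (2 * lam) * (κ * τ ^ 2 * D * Z) := by
          gcongr
      _ = τ * D * Z := by rw [hlam]; field_simp
  have h11 : τ * D * Z ≤ κ * τ * (V + (τ * D) ^ 2 * Z) := by
    have : lam * (2 * V + 2 * (τ * D) ^ 2 * Z) = κ * τ * (V + (τ * D) ^ 2 * Z) := by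
      rw [hlam]; ring
    rw [this] at key
    linarith
  have h12 : D * Z ≤ κ * (V + (τ * D) ^ 2 * Z) := by
    have : τ * (D * Z) ≤ τ * (κ * (V + (τ * D) ^ 2 * Z)) := by linarith
    exact le_of_mul_le_mul_left this hτ0
  have h13 : κ * (τ * D) ^ 2 * Z = D * Z / 2 := by
    have : κ * (τ * D) ^ 2 = (κ * τ ^ 2 * D) * D := by ring
    rw [this, hτ2]; ring
  have h14 : κ * (V + (τ * D) ^ 2 * Z) = κ * V + D * Z / 2 := by
    rw [mul_add, ← h13]; ring
  rw [h14] at h12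
  linarith

end Pool.Agent.V7H69.EL
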