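import Pool.Agent.V7H69.EL.Mid
import Pool.Agent.H888R2.KT.N1
import Pool.Agent.Y506.RG.Stm

/-!
# Densities with pinched curvature: the inequality of Kannan, Lovasz and Simonovits
-/

set_option autoImplicit false

namespace Pool.Agent.V7H69.EL

open MeasureTheory Set Filter Topology
open scoped InnerProductSpace
open Pool.Agent.Y506.RG (EW VW)

variable {n : ℕ} {κ : ℝ} {S : Eu n ≃L[ℝ] Eu n} {w : Eu n → ℝ}

/-- truncation -/
noncomputable def tr (w : Eu n → ℝ) (R : ℕ) : Eu n → ℝ :=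
  (Metric.closedBall (0 : Eu n) R).indicator w

theorem tr_tends {F : Eu n → ℝ} {w : Eu n → ℝ} (hF : Integrable fun x => F x * w x) :
    Tendsto (fun R : ℕ => ∫ x, F x * tr w R x) atTop (𝓝 (∫ x, F x * w x)) := by
  have e : ∀ (R : ℕ) x, F x * tr w R x =
      (Metric.closedBall (0 : Eu n) R).indicator (fun y => F y * w y) x := by
    intro R x
    unfold tr
    by_cases hx : x ∈ Metric.closedBall (0 : Eu n) R
    · rw [indicator_of_mem hx, indicator_of_mem hx]
    · rw [indicator_of_notMem hx, indicator_of_notMem hx, mul_zero]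
  simp only [e]
  refine tendsto_integral_of_dominated_convergence (fun x => ‖F x * w x‖) (fun R => ?_) hF.norm
    (fun R => ?_) ?_
  · exact hF.aestronglyMeasurable.indicator Metric.isClosed_closedBall.measurableSet
  · exact Eventually.of_forall fun x => norm_indicator_le_norm_self _ _
  · refine Eventually.of_forall fun x => ?_
    refine tendsto_const_nhds.congr' ?_
    filter_upwards [eventually_ge_atTop ⌈‖x‖⌉₊] with R hR
    have hx : x ∈ Metric.closedBall (0 : Eu n) R := by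
      rw [mem_closedBall_zero_iff]
      exact (Nat.le_ceil _).trans (by exact_mod_cast hR)
    rw [indicator_of_mem hx]

theorem tr_int {F : Eu n → ℝ} {w : Eu n → ℝ} (hF : Integrable fun x => F x * w x) (R : ℕ) :
    Integrable fun x => F x * tr w R x := by
  have e : (fun x => F x * tr w R x) =
      (Metric.closedBall (0 : Eu n) R).indicator (fun y => F y * w y) := by
    funext x
    unfold tr
    by_cases hx : x ∈ Metric.closedBall (0 : Eu n) R
    · rw [indicator_of_mem hx, indicator_of_mem hx]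
    · rw [indicator_of_notMem hx, indicator_of_notMem hx, mul_zero]
  rw [e]
  exact hF.indicator Metric.isClosed_closedBall.measurableSet

/-- the inequality of Brascamp and Lieb for `w` -/
theorem Mid.poin (h : Mid κ S w) {f : Eu n → ℝ} (hf : ContDiff ℝ 1 f) {B C : ℝ}
    (hB : ∀ x, |f x| ≤ B) (hC : ∀ x, ‖fderiv ℝ f x‖ ≤ C) :
    (∫ x, f x ^ 2 * w x) * (∫ x, w x) - (∫ x, f x * w x) ^ 2 ≤
      (∫ x, w x) * ∫ x, ‖(fderiv ℝ f x).comp (S : Eu n →L[ℝ] Eu n)‖ ^ 2 * w x := by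
  have hB0 : 0 ≤ B := (abs_nonneg _).trans (hB 0)
  have hC0 : 0 ≤ C := (norm_nonneg _).trans (hC 0)
  set g : Eu n → ℝ := fun x => ‖(fderiv ℝ f x).comp (S : Eu n →L[ℝ] Eu n)‖ ^ 2 with hg
  have hfd : Continuous (fderiv ℝ f) := hf.continuous_fderiv one_ne_zero
  have hgc : Continuous g := (continuous_norm.comp (hfd.clm_comp continuous_const)).pow 2
  have hone : ∀ x : Eu n, (1 : ℝ) ≤ 1 + ‖x‖ ^ 2 := fun x => by nlinarith [sq_nonneg ‖x‖]
  have i0 : Integrable fun x => (1 : ℝ) * w x := by simpa using h.int0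
  have i1 : Integrable fun x => f x * w x := h.intg hf.continuous B fun x =>
    (hB x).trans (by nlinarith [hone x])
  have i2 : Integrable fun x => f x ^ 2 * w x := h.intg (hf.continuous.pow 2) (B ^ 2) fun x => by
    rw [abs_pow]
    have h1 : |f x| ^ 2 ≤ B ^ 2 := by have := hB x; gcongr
    nlinarith [hone x, sq_nonneg B]
  have ig : Integrable fun x => g x * w x := by
    refine h.intg hgc ((C * ‖(S : Eu n →L[ℝ] Eu n)‖) ^ 2) fun x => ?_
    have h1 : g x ≤ (C * ‖(S : Eu n →L[ℝ] Eu n)‖) ^ 2 := by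
      have h2 : ‖(fderiv ℝ f x).comp (S : Eu n →L[ℝ] Eu n)‖ ≤ C * ‖(S : Eu n →L[ℝ] Eu n)‖ :=
        (ContinuousLinearMap.opNorm_comp_le _ _).trans
          (mul_le_mul_of_nonneg_right (hC x) (norm_nonneg _))
      simp only [hg]
      gcongr
    have h3 : 0 ≤ g x := by simp only [hg]; positivity
    rw [abs_of_nonneg h3]
    refine h1.trans ?_
    have := sq_nonneg (C * ‖(S : Eu n →L[ℝ] Eu n)‖)
    nlinarith [hone x]
  obtain ⟨B', hB'⟩ := h.bdd
  have key : ∀ R : ℕ, (∫ x, f x ^ 2 * tr w R x) * (∫ x, 1 * tr w R x) -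
      (∫ x, f x * tr w R x) ^ 2 ≤ (∫ x, 1 * tr w R x) * ∫ x, g x * tr w R x := by
    intro R
    have hnn : ∀ x, 0 ≤ tr w R x := fun x => indicator_nonneg (fun y _ => (h.pos y).le) x
    obtain ⟨c, hc⟩ := Pool.Agent.H888R2.KT.bl_lin (tr w R) hnn
      (h.cont.measurable.indicator Metric.isClosed_closedBall.measurableSet)
      ⟨B', fun x => (indicator_le_self' (fun y _ => (h.pos y).le) x).trans (hB' x)⟩
      (by
        refine ⟨(R : ℝ), fun x hx => indicator_of_notMem (fun hxC => ?_) _⟩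
        rw [mem_closedBall_zero_iff] at hxC
        exact absurd hxC (not_le.2 hx))
      S (by
        intro x y
        unfold tr
        by_cases hx : x ∈ Metric.closedBall (0 : Eu n) R
        swap
        · rw [indicator_of_notMem hx, zero_mul]; positivity
        by_cases hy : y ∈ Metric.closedBall (0 : Eu n) R
        swap
        · rw [indicator_of_notMem hy, mul_zero]; positivity
        have hm : (1 / 2 : ℝ) • (x + y) ∈ Metric.closedBall (0 : Eu n) R := by
          rw [smul_add]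
          exact convex_closedBall _ _ hx hy (by norm_num) (by norm_num) (by norm_num)
        rw [indicator_of_mem hx, indicator_of_mem hy, indicator_of_mem hm]
        exact h.lower x y) f hf
    have j0 := tr_int i0 R
    have j1 := tr_int i1 R
    have j2 := tr_int i2 R
    have j21 : Integrable fun x => f x ^ 2 * tr w R x - 2 * c * (f x * tr w R x) :=
      j2.sub (j1.const_mul _)
    have e1 : ∫ x, (f x - c) ^ 2 * tr w R x = (∫ x, f x ^ 2 * tr w R x) -
        2 * c * (∫ x, f x * tr w R x) + c ^ 2 * ∫ x, 1 * tr w R x := by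
      rw [← integral_const_mul, ← integral_const_mul, ← integral_sub j2 (j1.const_mul _),
        ← integral_add j21 (j0.const_mul _)]
      congr 1
      ext x
      ring
    have hI : 0 ≤ ∫ x, 1 * tr w R x := integral_nonneg fun x => by
      simpa using hnn x
    rw [e1] at hc
    have h2 := mul_le_mul_of_nonneg_right hc hI
    have h3 := sq_nonneg ((∫ x, f x * tr w R x) - c * ∫ x, 1 * tr w R x)
    simp only [hg]
    nlinarith
  have t0 := tr_tends i0
  have t1 := tr_tends i1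
  have t2 := tr_tends i2
  have tg := tr_tends ig
  have hfin := le_of_tendsto_of_tendsto' ((t2.mul t0).sub (t1.pow 2)) (t0.mul tg) key
  simpa using hfin

/-- the variance with weight `w` -/
theorem vw_eq {f : Eu n → ℝ} {m : ℝ} (h0 : Integrable w) (hZ : (∫ x, w x) ≠ 0)
    (h1 : Integrable fun x => f x * w x) (h2 : Integrable fun x => f x ^ 2 * w x)
    (hm : m = EW w f) :
    ∫ x, (f x - m) ^ 2 * w x = VW w f * ∫ x, w x := by
  have e1 : ∀ x, (f x - m) ^ 2 * w x = f x ^ 2 * w x - 2 * m * (f x * w x) + m ^ 2 * w x := by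
    intro x; ring
  have i12 : Integrable fun x => f x ^ 2 * w x - 2 * m * (f x * w x) := h2.sub (h1.const_mul _)
  simp only [e1]
  rw [integral_add i12 (h0.const_mul _), integral_sub h2 (h1.const_mul _), integral_const_mul,
    integral_const_mul]
  unfold VW
  rw [← hm]
  have e2 : ∫ x, f x * w x = m * ∫ x, w x := by
    rw [hm, EW, div_mul_cancel₀ _ hZ]
  have e3 : EW w (fun x => f x ^ 2) * (∫ x, w x) = ∫ x, f x ^ 2 * w x := by
    rw [EW, div_mul_cancel₀ _ hZ]
  rw [e2, sub_mul, e3]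
  ring

/-- the norm of a linear map of `ℝ^n` in terms of variances -/
theorem Mid.norm_le (h : Mid κ S w) (hκ : 0 < κ) {k : ℕ} (P : Eu n →L[ℝ] Eu k) {s : ℝ}
    (hs : 0 < s) (hv : ∀ θ : Eu k, ‖θ‖ = 1 → VW w (fun x => ⟪P x, θ⟫_ℝ) ≤ s) :
    ‖P.comp (S : Eu n →L[ℝ] Eu n)‖ ^ 2 ≤ 2 * κ * s := by
  have hZ := h.ipos
  -- the adjoint
  have key : ∀ θ : Eu k, ‖θ‖ = 1 →
      ‖ContinuousLinearMap.adjoint (S : Eu n →L[ℝ] Eu n) (ContinuousLinearMap.adjoint P θ)‖ ^ 2 ≤
        2 * κ * s := by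
    intro θ hθ
    set u : Eu n := ContinuousLinearMap.adjoint P θ with hu
    set b : Eu n := ContinuousLinearMap.adjoint (S : Eu n →L[ℝ] Eu n) u with hb
    have h1 : ⟪(S : Eu n →L[ℝ] Eu n) b, u⟫_ℝ = ‖b‖ ^ 2 := by
      rw [← ContinuousLinearMap.adjoint_inner_right, ← hb, real_inner_self_eq_norm_sq]
    have hPu : ∀ x : Eu n, ⟪x, u⟫_ℝ = ⟪P x, θ⟫_ℝ := by
      intro x
      rw [hu, ContinuousLinearMap.adjoint_inner_right]
    have i1 : Integrable fun x => ⟪x, u⟫_ℝ * w x := by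
      refine h.intg (by fun_prop) ‖u‖ fun x => ?_
      refine (abs_real_inner_le_norm _ _).trans ?_
      have h3 : ‖x‖ ≤ 1 + ‖x‖ ^ 2 := by nlinarith [sq_nonneg (‖x‖ - 1)]
      have h5 := norm_nonneg u
      nlinarith
    have i2 : Integrable fun x => ⟪x, u⟫_ℝ ^ 2 * w x := by
      refine h.intg (by fun_prop) (‖u‖ ^ 2) fun x => ?_
      rw [abs_pow]
      have h3 : |⟪x, u⟫_ℝ| ^ 2 ≤ (‖x‖ * ‖u‖) ^ 2 := by
        have := abs_real_inner_le_norm x u
        gcongr
      nlinarith [sq_nonneg ‖u‖]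
    have h2 := h.var_low hκ u ((S : Eu n →L[ℝ] Eu n) b) (by
      rw [h1]
      have : S.symm ((S : Eu n →L[ℝ] Eu n) b) = b := S.symm_apply_apply b
      rw [this]) (EW w fun x => ⟪x, u⟫_ℝ) (by rw [EW, div_mul_cancel₀ _ hZ.ne'])
    rw [vw_eq h.int0 hZ.ne' i1 i2 rfl, h1] at h2
    have h3 : ‖b‖ ^ 2 ≤ 2 * κ * VW w (fun x => ⟪x, u⟫_ℝ) := by
      have h4 : ‖b‖ ^ 2 * (∫ x, w x) ≤ (2 * κ * VW w (fun x => ⟪x, u⟫_ℝ)) * ∫ x, w x := by
        linarith
      exact le_of_mul_le_mul_right h4 hZ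
    refine h3.trans ?_
    have h5 := hv θ hθ
    simp only [hPu]
    gcongr
  have hle : ‖P.comp (S : Eu n →L[ℝ] Eu n)‖ ≤ Real.sqrt (2 * κ * s) := by
    refine ContinuousLinearMap.opNorm_le_bound _ (Real.sqrt_nonneg _) fun z => ?_
    rcases eq_or_ne (P (S z)) 0 with h0 | h0
    · change ‖P (S z)‖ ≤ _
      rw [h0, norm_zero]; positivity
    · have hn : 0 < ‖P (S z)‖ := norm_pos_iff.2 h0
      set θ : Eu k := (‖P (S z)‖)⁻¹ • P (S z) with hθ
      have hθ1 : ‖θ‖ = 1 := by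
        rw [hθ, norm_smul, norm_inv, norm_norm, inv_mul_cancel₀ hn.ne']
      have h1 : ‖P (S z)‖ = ⟪P (S z), θ⟫_ℝ := by
        rw [hθ, inner_smul_right, real_inner_self_eq_norm_sq]
        field_simp
      have h2 : ⟪P (S z), θ⟫_ℝ = ⟪z, ContinuousLinearMap.adjoint (S : Eu n →L[ℝ] Eu n)
          (ContinuousLinearMap.adjoint P θ)⟫_ℝ := by
        rw [ContinuousLinearMap.adjoint_inner_right, ContinuousLinearMap.adjoint_inner_right]
        rfl
      have h3 : ‖ContinuousLinearMap.adjoint (S : Eu n →L[ℝ] Eu n)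
          (ContinuousLinearMap.adjoint P θ)‖ ≤ Real.sqrt (2 * κ * s) :=
        Real.le_sqrt_of_sq_le (key θ hθ1)
      change ‖P (S z)‖ ≤ _
      rw [h1, h2]
      refine (real_inner_le_norm _ _).trans ?_
      rw [mul_comm]
      gcongr
  calc ‖P.comp (S : Eu n →L[ℝ] Eu n)‖ ^ 2 ≤ (Real.sqrt (2 * κ * s)) ^ 2 := by gcongr
    _ = 2 * κ * s := Real.sq_sqrt (by positivity)

/-- **the inequality of Kannan, Lovasz and Simonovits** for all linear images -/
theorem Mid.kls (h : Mid κ S w) (hκ : 0 < κ) {k : ℕ} (P : Eu n →ₗ[ℝ] Eu k) {s : ℝ}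
    (hs : 0 < s) (hv : ∀ θ : Eu k, ‖θ‖ = 1 → VW w (fun x => ⟪P x, θ⟫_ℝ) ≤ s)
    {v : Eu k → ℝ} {C : ℝ} (hvd : ContDiff ℝ 1 v) (hv1 : ∀ y, |v y| ≤ 1)
    (hvl : ∀ y, ‖fderiv ℝ v y‖ ≤ C) :
    VW w (fun x => v (P x)) ≤ 2 * κ * s * EW w fun x => ‖fderiv ℝ v (P x)‖ ^ 2 := by
  have hZ := h.ipos
  set P' : Eu n →L[ℝ] Eu k := LinearMap.toContinuousLinearMap P with hP'
  have hPP : ∀ x, P' x = P x := fun x => rfl
  have hC0 : 0 ≤ C := (norm_nonneg _).trans (hvl 0)
  have hfd : ∀ x, fderiv ℝ (fun x => v (P x)) x = (fderiv ℝ v (P x)).comp P' := by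
    intro x
    have h2 : HasFDerivAt v (fderiv ℝ v (P' x)) (P' x) :=
      (hvd.differentiable one_ne_zero (P' x)).hasFDerivAt
    exact (h2.comp x P'.hasFDerivAt).fderiv
  have hf : ContDiff ℝ 1 (fun x => v (P x)) := hvd.comp P'.contDiff
  have h1 := h.poin hf (B := 1) (C := C * ‖P'‖) (fun x => hv1 _) (fun x => by
    rw [hfd]
    exact (ContinuousLinearMap.opNorm_comp_le _ _).trans
      (mul_le_mul_of_nonneg_right (hvl _) (norm_nonneg _)))
  have hn := h.norm_le hκ P' hs hv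
  have hvc : Continuous fun x : Eu n => ‖fderiv ℝ v (P x)‖ ^ 2 :=
    (continuous_norm.comp ((hvd.continuous_fderiv one_ne_zero).comp P'.continuous)).pow 2
  have ig : Integrable fun x => ‖fderiv ℝ v (P x)‖ ^ 2 * w x := by
    refine h.intg hvc (C ^ 2) fun x => ?_
    rw [abs_of_nonneg (by positivity)]
    have h3 : ‖fderiv ℝ v (P x)‖ ^ 2 ≤ C ^ 2 := by
      have := hvl (P x)
      gcongr
    nlinarith [sq_nonneg C, sq_nonneg ‖x‖]
  have hle : ∫ x, ‖(fderiv ℝ (fun x => v (P x)) x).comp (S : Eu n →L[ℝ] Eu n)‖ ^ 2 * w x ≤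
      2 * κ * s * ∫ x, ‖fderiv ℝ v (P x)‖ ^ 2 * w x := by
    rw [← integral_const_mul]
    have hpt : ∀ x, ‖(fderiv ℝ (fun x => v (P x)) x).comp (S : Eu n →L[ℝ] Eu n)‖ ^ 2 * w x ≤
        2 * κ * s * (‖fderiv ℝ v (P x)‖ ^ 2 * w x) := by
      intro x
      rw [hfd, ContinuousLinearMap.comp_assoc, ← mul_assoc]
      refine mul_le_mul_of_nonneg_right ?_ (h.pos x).le
      calc ‖(fderiv ℝ v (P x)).comp (P'.comp (S : Eu n →L[ℝ] Eu n))‖ ^ 2
          ≤ (‖fderiv ℝ v (P x)‖ * ‖P'.comp (S : Eu n →L[ℝ] Eu n)‖) ^ 2 := by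
            gcongr
            exact ContinuousLinearMap.opNorm_comp_le _ _
        _ = ‖P'.comp (S : Eu n →L[ℝ] Eu n)‖ ^ 2 * ‖fderiv ℝ v (P x)‖ ^ 2 := by ring
        _ ≤ _ := by gcongr
    have hgc : Continuous fun x => ‖(fderiv ℝ (fun x => v (P x)) x).comp
        (S : Eu n →L[ℝ] Eu n)‖ ^ 2 :=
      (continuous_norm.comp ((hf.continuous_fderiv one_ne_zero).clm_comp continuous_const)).pow 2
    refine integral_mono ?_ (ig.const_mul _) hpt
    refine (ig.const_mul (2 * κ * s)).mono' (hgc.mul h.cont).aestronglyMeasurable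
      (Eventually.of_forall fun x => ?_)
    rw [Real.norm_eq_abs, abs_of_nonneg (mul_nonneg (by positivity) (h.pos x).le)]
    exact hpt x
  -- conclusion
  have h2 : (∫ x, v (P x) ^ 2 * w x) * (∫ x, w x) - (∫ x, v (P x) * w x) ^ 2 ≤
      (∫ x, w x) * (2 * κ * s * ∫ x, ‖fderiv ℝ v (P x)‖ ^ 2 * w x) :=
    h1.trans (mul_le_mul_of_nonneg_left hle hZ.le)
  have e1 : VW w (fun x => v (P x)) = ((∫ x, v (P x) ^ 2 * w x) * (∫ x, w x) -
      (∫ x, v (P x) * w x) ^ 2) / (∫ x, w x) ^ 2 := by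
    unfold VW EW
    field_simp
  have e2 : 2 * κ * s * (EW w fun x => ‖fderiv ℝ v (P x)‖ ^ 2) =
      ((∫ x, w x) * (2 * κ * s * ∫ x, ‖fderiv ℝ v (P x)‖ ^ 2 * w x)) / (∫ x, w x) ^ 2 := by
    unfold EW
    field_simp
  rw [e1, e2]
  gcongr

end Pool.Agent.V7H69.EL
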